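import Pool.Agent.H82.NP.Main
import Pool.Agent.H82.UB.Targets

/-!
# Telescoping with a general constant (module TELG)
-/

set_option autoImplicit false

open Metric Set Filter Topology

namespace Pool.Agent.H40.UB

open Pool.Agent.H82.NP Pool.Agent.H82.UB

private theorem stepG (hENV : T_ENV) {n : ℕ} {K : ℝ} (hQ0 : 0 ≤ K)
    (hQ : ∀ (G : Polynomial ℂ) (δ : ℝ), G.natDegree ≤ n →
      nrm n G = 1 → 0 ≤ δ → δ ≤ 1 / 2 →
      av (fun z => sq G z ^ (1 - δ)) ≤ 1 - δ * ent (sq G) + K * δ ^ 2)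
    {s₀ s s' : ℝ} {c c' : ℕ → ℂ} {G : Polynomial ℂ} {lam : ℕ → ℂ} {m : ℕ}
    {r : Fin m → ℝ} {ζ : Fin m → ℂ} (hn : 1 ≤ n) (h0 : 0 < s₀) (hs : s₀ ≤ s) (hss : s < s')
    (h2s : s' ≤ 2 * s) (hs' : s' ≤ 1)
    (hM : Max n s c) (hK : KKT n s c G lam m r ζ) (hM' : Max n s' c') :
    Real.log ‖ea c n‖ ≤ Real.log ‖ea c' n‖ - (s' - s) * ent (sq G) +
      K / s₀ * (s' - s) ^ 2 := by
  have hE := hENV n s s' c c' G lam m r ζ hn (by linarith) hss hs' hM hK hM'
  have hs0 : 0 < s' := by linarith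
  set δ : ℝ := 1 - s / s' with hδ
  have h1 : 1 - δ = s / s' := by rw [hδ]; ring
  have hδ0 : 0 ≤ δ := by
    rw [hδ, sub_nonneg, div_le_one hs0]
    exact hss.le
  have hδ2 : δ ≤ 1 / 2 := by
    have : 1 / 2 ≤ s / s' := by
      rw [le_div_iff₀ hs0]
      linarith
    linarith
  have hq := hQ G δ hK.deg (H39.NP.nrm_one hM hK) hδ0 hδ2
  rw [h1] at hq
  have hG0 : G.eval 0 ≠ 0 := hK.zf 0 (by rw [norm_zero]; norm_num)
  have hav : 0 < av (fun z => sq G z ^ (s / s')) :=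
    H39.NP.sq_av_pos hG0 (div_pos (by linarith) hs0)
  have hlog := Real.log_le_sub_one_of_pos hav
  have hlog2 : Real.log (av (fun z => sq G z ^ (s / s'))) ≤ - δ * ent (sq G) + K * δ ^ 2 := by
    linarith
  have hE2 := Real.log_le_log (mul_pos hM.pos (Real.exp_pos _)) hE
  rw [Real.log_mul hM.pos.ne' (Real.exp_pos _).ne', Real.log_exp] at hE2
  have h3 : s' * Real.log (av (fun z => sq G z ^ (s / s'))) ≤
      s' * (- δ * ent (sq G) + K * δ ^ 2) := mul_le_mul_of_nonneg_left hlog2 hs0.le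
  have h4 : s' * δ = s' - s := by
    rw [hδ, mul_sub, mul_one, mul_div_cancel₀ _ hs0.ne']
  have h5 : K * (s' * δ ^ 2) ≤ K / s₀ * (s' - s) ^ 2 := by
    have e1 : s' * δ ^ 2 = (s' - s) * δ := by rw [pow_two, ← mul_assoc, h4]
    have hd : s₀ * δ ≤ s' - s := by
      rw [← h4]
      exact mul_le_mul_of_nonneg_right (by linarith) hδ0
    have hd2 : δ ≤ (s' - s) / s₀ := by
      rw [le_div_iff₀ h0]
      linarith
    have e2 : K / s₀ * (s' - s) ^ 2 = K * ((s' - s) * ((s' - s) / s₀)) := by ring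
    rw [e1, e2]
    apply mul_le_mul_of_nonneg_left _ hQ0
    exact mul_le_mul_of_nonneg_left hd2 (by linarith)
  have h6 : s' * (- δ * ent (sq G) + K * δ ^ 2) ≤
      -(s' - s) * ent (sq G) + K / s₀ * (s' - s) ^ 2 := by
    have e : s' * (- δ * ent (sq G) + K * δ ^ 2) =
        -(s' * δ) * ent (sq G) + K * (s' * δ ^ 2) := by ring
    rw [e, h4]
    linarith
  linarith

theorem t_TELG_of (hMX : T_MAXEX) (hKKT : T_KKT) (hENV : T_ENV) (hQUAD : T_QUAD)
    (hP1 : T_P1) : T_TELG := by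
  intro n κ hn _ hent s₀ hs₀ hs₀1 d hd
  obtain ⟨K, hK0, hQ⟩ := hQUAD n
  -- the maximal value
  have hmx : ∀ s : ℝ, 0 < s → s ≤ 1 → ∃ c, Max n s c := fun s h0 h1 => hMX n s hn h0 h1
  have hex : ∃ B : ℝ → ℝ, ∀ s, 0 < s → s ≤ 1 → ∀ c, Max n s c → Real.log ‖ea c n‖ = B s := by
    classical
    refine ⟨fun s => if h : 0 < s ∧ s ≤ 1 then Real.log ‖ea (hmx s h.1 h.2).choose n‖ else 0, ?_⟩
    intro s h0 h1 c hc
    simp only [h0, h1, and_self, dif_pos]
    have hc' := (hmx s h0 h1).choose_spec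
    congr 1
    exact le_antisymm (hc'.max c hc.mem) (hc.max _ hc'.mem)
  obtain ⟨B, hB⟩ := hex
  have hstep : ∀ s s', s₀ ≤ s → s < s' → s' ≤ 2 * s → s' ≤ 1 →
      B s ≤ B s' - (s' - s) * κ + K / s₀ * (s' - s) ^ 2 := by
    intro s s' hs hss h2s hs'
    obtain ⟨c, hc⟩ := hmx s (by linarith) (by linarith)
    obtain ⟨c', hc'⟩ := hmx s' (by linarith) hs'
    obtain ⟨G, lam, m, r, ζ, hK⟩ := hKKT n s c hn (by linarith) (by linarith) hc
    have h1 := stepG hENV hK0 hQ hn hs₀ hs hss h2s hs' hc hK hc'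
    have h2 := hent s c G lam m r ζ (by linarith) (by linarith) hc hK
    rw [hB s (by linarith) (by linarith) c hc, hB s' (by linarith) hs' c' hc'] at h1
    have h3 := mul_le_mul_of_nonneg_left h2 (by linarith : 0 ≤ s' - s)
    linarith
  have hB1 : B 1 ≤ 0 := by
    obtain ⟨c, hc⟩ := hmx 1 (by norm_num) le_rfl
    obtain ⟨G, lam, m, r, ζ, hK⟩ := hKKT n 1 c hn (by norm_num) le_rfl hc
    have h1 := (hP1 n c G lam m r ζ hn hc hK).1
    rw [← hB 1 (by norm_num) le_rfl c hc]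
    exact Real.log_nonpos (norm_nonneg _) h1
  have hlim : Tendsto (fun M : ℕ => -(1 - s₀) * κ + K / s₀ * (1 - s₀) ^ 2 / ((M : ℝ) + 1))
      atTop (𝓝 (-(1 - s₀) * κ + 0)) := by
    apply Tendsto.const_add
    have h1 : Tendsto (fun M : ℕ => (M : ℝ) + 1) atTop atTop :=
      tendsto_atTop_add_const_right _ _ tendsto_natCast_atTop_atTop
    exact h1.const_div_atTop _
  rw [add_zero] at hlim
  have hev : ∀ᶠ M : ℕ in atTop, B s₀ ≤
      -(1 - s₀) * κ + K / s₀ * (1 - s₀) ^ 2 / ((M : ℝ) + 1) := by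
    obtain ⟨M₀, hM₀⟩ := exists_nat_gt ((1 - s₀) / s₀)
    filter_upwards [eventually_ge_atTop M₀] with M hMM
    have hM : (0 : ℝ) < (M : ℝ) + 1 := by positivity
    have hMM' : (M₀ : ℝ) ≤ (M : ℝ) := by exact_mod_cast hMM
    set h : ℝ := (1 - s₀) / ((M : ℝ) + 1) with hh
    have hhpos : 0 < h := div_pos (by linarith) hM
    have hMh : ((M : ℝ) + 1) * h = 1 - s₀ := by
      rw [hh, mul_div_cancel₀ _ hM.ne']
    have hhs : h ≤ s₀ := by
      rw [hh, div_le_iff₀ hM]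
      rw [div_lt_iff₀ hs₀] at hM₀
      nlinarith
    have hind : ∀ i : ℕ, i ≤ M + 1 → B s₀ ≤ B (s₀ + i * h) - i * h * κ +
        i * (K / s₀ * h ^ 2) := by
      intro i
      induction i with
      | zero => intro _; simp
      | succ i ih =>
        intro hi
        have h1 := ih (by omega)
        have hi' : ((i : ℝ) + 1) ≤ (M : ℝ) + 1 := by exact_mod_cast hi
        have h2 : s₀ + ((i : ℝ) + 1) * h ≤ 1 := by
          have := mul_le_mul_of_nonneg_right hi' hhpos.le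
          linarith
        have h3 : 0 ≤ (i : ℝ) * h := by positivity
        have h4 := hstep (s₀ + i * h) (s₀ + ((i : ℝ) + 1) * h) (by linarith) (by linarith)
          (by linarith) h2
        have e : s₀ + ((i : ℝ) + 1) * h - (s₀ + i * h) = h := by ring
        rw [e] at h4
        push_cast
        linarith
    have h1 := hind (M + 1) le_rfl
    push_cast at h1
    rw [hMh] at h1
    have e1 : s₀ + (1 - s₀) = 1 := by ring
    rw [e1] at h1
    have e2 : ((M : ℝ) + 1) * (K / s₀ * h ^ 2) = K / s₀ * (1 - s₀) ^ 2 / ((M : ℝ) + 1) := by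
      rw [hh]
      field_simp
    rw [e2] at h1
    linarith
  have hmain : B s₀ ≤ -(1 - s₀) * κ := ge_of_tendsto hlim hev
  obtain ⟨c, hc⟩ := hmx s₀ hs₀ hs₀1.le
  rw [← hB s₀ hs₀ hs₀1.le c hc] at hmain
  have h2 := (Real.log_le_iff_le_exp hc.pos).mp hmain
  exact le_trans (hc.max d hd) h2

theorem t_TELG : T_TELG :=
  t_TELG_of maxexT kktT H33.NP.t_ENV quadT poneT

end Pool.Agent.H40.UB
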